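import Pool.Agent.Helper23.EC.DGoalsN

set_option autoImplicit false

open MeasureTheory Filter Topology Set

namespace Pool.Agent.Helper2.EC.D_N9

open EC237

theorem prodSum (e : ℤ × ℤ × ℤ ≃ (ℤ × ℤ) × ℤ) {P : ℤ × ℤ → ℂ} {X : ℤ → ℂ}
    (hP : Summable P) (hX : Summable X) :
    HasSum (fun n => P (e n).1 * X (e n).2) ((∑' q, P q) * ∑' n, X n) := by
  have h1 : Summable (fun z : (ℤ × ℤ) × ℤ => P z.1 * X z.2) :=
    summable_mul_of_summable_norm hP.norm hX.norm
  have h2 := h1.hasSum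
  rw [← tsum_mul_tsum_of_summable_norm hP.norm hX.norm] at h2
  exact (Equiv.hasSum_iff e).mpr h2

theorem convSum (e : ℤ × ℤ × ℤ ≃ (ℤ × ℤ) × ℤ) {P : ℕ → ℤ × ℤ → ℂ} {X : ℕ → ℤ → ℂ}
    (hP : ∀ i, Summable (P i)) (hX : ∀ i, Summable (X i)) :
    HasSum (fun n => P 0 (e n).1 * X 2 (e n).2 + P 1 (e n).1 * X 1 (e n).2 +
      P 2 (e n).1 * X 0 (e n).2)
      ((∑' q, P 0 q) * (∑' n, X 2 n) + (∑' q, P 1 q) * (∑' n, X 1 n) +
        (∑' q, P 2 q) * ∑' n, X 0 n) :=
  ((prodSum e (hP 0) (hX 2)).add (prodSum e (hP 1) (hX 1))).add (prodSum e (hP 2) (hX 0))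

theorem coeff2_mul (A B : PowerSeries ℂ) : PowerSeries.coeff 2 (A * B) =
    PowerSeries.coeff 0 A * PowerSeries.coeff 2 B + PowerSeries.coeff 1 A * PowerSeries.coeff 1 B +
      PowerSeries.coeff 2 A * PowerSeries.coeff 0 B := by
  rw [PowerSeries.coeff_mul]
  have : (Finset.HasAntidiagonal.antidiagonal 2 : Finset (ℕ × ℕ)) = {(0, 2), (1, 1), (2, 0)} := by
    decide
  rw [this]
  rw [Finset.sum_insert (by decide), Finset.sum_insert (by decide), Finset.sum_singleton]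
  ring

/-- coefficient of `x²` of a product -/
noncomputable def cc (A B : PowerSeries ℂ) : ℂ :=
  PowerSeries.coeff 0 A * PowerSeries.coeff 2 B + PowerSeries.coeff 1 A * PowerSeries.coeff 1 B +
      PowerSeries.coeff 2 A * PowerSeries.coeff 0 B

theorem coeff_Ts (w : ℂ) (v1 v2 v3 v4 : SV) : PowerSeries.coeff 2 (Ts w v1 v2 v3 v4) =
    -(cc (Pp w v1 v2) (xx w v3)) + cc (Pp w v1 v2) (xx w v4) - cc (Pp w v3 v4) (xx w v1)
      + cc (Pp w v3 v4) (xx w v2) + 1 / 3 * (cc (Ff w v1 v2) (hh w v3) - cc (Ff w v1 v2) (hh w v4)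
      + cc (Ff w v3 v4) (hh w v1) - cc (Ff w v3 v4) (hh w v2)) := by
  unfold Ts
  simp only [map_add, map_sub, map_neg, PowerSeries.coeff_smul, coeff2_mul, smul_eq_mul, cc]
  ring

def e1 : ℤ × ℤ × ℤ ≃ (ℤ × ℤ) × ℤ where
  toFun n := ((n.1, n.2.1), n.2.2)
  invFun z := (z.1.1, z.1.2, z.2)
  left_inv n := rfl
  right_inv z := rfl

def e4 : ℤ × ℤ × ℤ ≃ (ℤ × ℤ) × ℤ where
  toFun n := ((n.1, n.2.1), -(n.1 + n.2.1 + n.2.2))
  invFun z := (z.1.1, z.1.2, -(z.1.1 + z.1.2 + z.2))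
  left_inv n := by ext <;> simp; ring
  right_inv z := by ext <;> simp; ring

def f1 : ℤ × ℤ × ℤ ≃ (ℤ × ℤ) × ℤ where
  toFun n := ((n.2.2, -(n.1 + n.2.1 + n.2.2)), n.1)
  invFun z := (z.2, -(z.2 + z.1.1 + z.1.2), z.1.1)
  left_inv n := by ext <;> simp
  right_inv z := by ext <;> simp; ring

def f2 : ℤ × ℤ × ℤ ≃ (ℤ × ℤ) × ℤ where
  toFun n := ((n.2.2, -(n.1 + n.2.1 + n.2.2)), n.2.1)
  invFun z := (-(z.2 + z.1.1 + z.1.2), z.2, z.1.1)
  left_inv n := by ext <;> simp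
  right_inv z := by ext <;> simp; ring

theorem thm (hN1 : EC237.N1) (hN2 : EC237.N2) (hN3 : EC237.N3) (_hN4 : EC237.N4)
    (hN5 : EC237.N5) : EC237.N9 := by
  intro y hy u1 u2 u3 u4 hr hm ha
  -- summable families
  let PF : Leg → Leg → ℕ → ℤ × ℤ → ℂ := fun u v i q =>
    if InCl u.1 (q.1, u.2.1) ∧ InCl v.1 (q.2, v.2.1) then
      PowerSeries.coeff i (Pp (y:ℂ) ((q.1, u.2.1), u.2.2) ((q.2, v.2.1), v.2.2)) else 0
  let FF : Leg → Leg → ℕ → ℤ × ℤ → ℂ := fun u v i q =>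
    if InCl u.1 (q.1, u.2.1) ∧ InCl v.1 (q.2, v.2.1) then
      PowerSeries.coeff i (Ff (y:ℂ) ((q.1, u.2.1), u.2.2) ((q.2, v.2.1), v.2.2)) else 0
  let XF : Leg → ℕ → ℤ → ℂ := fun u i n =>
    if InCl u.1 (n, u.2.1) then PowerSeries.coeff i (xx (y:ℂ) ((n, u.2.1), u.2.2)) else 0
  let HF : Leg → ℕ → ℤ → ℂ := fun u i n =>
    if InCl u.1 (n, u.2.1) then PowerSeries.coeff i (hh (y:ℂ) ((n, u.2.1), u.2.2)) else 0
  have sP : ∀ u v i, Summable (PF u v i) := fun u v i => hN2 y hy _ _ _ _ _ _ i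
  have sF : ∀ u v i, Summable (FF u v i) := fun u v i => (hN3 y hy _ _ _ _ _ _).1 i
  have sX : ∀ u i, Summable (XF u i) := fun u i => (hN1 y hy _ _ _ i).2.2
  have sH : ∀ u i, Summable (HF u i) := fun u i => (hN1 y hy _ _ _ i).1
  have key := ((((convSum e1 (sP u1 u2) (sX u3)).neg.add (convSum e4 (sP u1 u2) (sX u4))).sub
    (convSum f1 (sP u3 u4) (sX u1))).add (convSum f2 (sP u3 u4) (sX u2))).add
    ((((convSum e1 (sF u1 u2) (sH u3)).sub (convSum e4 (sF u1 u2) (sH u4))).add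
    (convSum f1 (sF u3 u4) (sH u1))).sub (convSum f2 (sF u3 u4) (sH u2)) |>.mul_left (1 / 3 : ℂ))
  have tP : ∀ u v i, ∑' q, PF u v i q = pL y u v i := fun u v i => rfl
  have tF : ∀ u v i, ∑' q, FF u v i q = fL y u v i := fun u v i => rfl
  have tX : ∀ u i, ∑' n, XF u i n = xL y u i := fun u i => rfl
  have tH : ∀ u i, ∑' n, HF u i n = hL y u i := fun u i => rfl
  have zP : ∀ u v i, i % 2 = 0 → pL y u v i = 0 := fun u v i hi =>
    (hN5 y hy _ _ _ _ _ _).2.2.2.1 i hi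
  have zF : ∀ u v, fL y u v 1 = 0 := fun u v => (hN5 y hy _ _ _ _ _ _).2.2.2.2.1 1 rfl
  simp only [tP, tF, tX, tH, zF, zP _ _ 0 rfl, zP _ _ 2 rfl] at key
  have hval : PM y u1 u2 u3 u4 + VM y u1 u2 u3 u4 =
      -(0 * xL y u3 2 + pL y u1 u2 1 * xL y u3 1 + 0 * xL y u3 0) +
      (0 * xL y u4 2 + pL y u1 u2 1 * xL y u4 1 + 0 * xL y u4 0) -
      (0 * xL y u1 2 + pL y u3 u4 1 * xL y u1 1 + 0 * xL y u1 0) +
      (0 * xL y u2 2 + pL y u3 u4 1 * xL y u2 1 + 0 * xL y u2 0) +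
      1 / 3 * ((fL y u1 u2 0 * hL y u3 2 + 0 * hL y u3 1 + fL y u1 u2 2 * hL y u3 0) -
      (fL y u1 u2 0 * hL y u4 2 + 0 * hL y u4 1 + fL y u1 u2 2 * hL y u4 0) +
      (fL y u3 u4 0 * hL y u1 2 + 0 * hL y u1 1 + fL y u3 u4 2 * hL y u1 0) -
      (fL y u3 u4 0 * hL y u2 2 + 0 * hL y u2 1 + fL y u3 u4 2 * hL y u2 0)) := by
    unfold PM VM; ring
  rw [hval]
  refine Eq.subst (motive := fun g => HasSum g _) ?_ key
  funext n
  symm
  obtain ⟨n1, n2, n3⟩ := n
  simp only [e1, e4, f1, f2, Equiv.coe_fn_mk, PF, FF, XF, HF]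
  unfold InCl at *
  simp only at hm ha hr ⊢
  by_cases c1 : (u1.2.1 + 3 * n1 - u1.1) % 6 = 0 <;>
  by_cases c2 : (u2.2.1 + 3 * n2 - u2.1) % 6 = 0 <;>
  by_cases c3 : (u3.2.1 + 3 * n3 - u3.1) % 6 = 0 <;>
  by_cases c4 : (u4.2.1 + 3 * -(n1 + n2 + n3) - u4.1) % 6 = 0
  · simp only [c1, c2, c3, c4, and_self, if_true]
    rw [coeff_Ts]
    unfold cc sv
    ring
  · exact absurd (by omega) c4
  · exact absurd (by omega) c3
  · simp only [c1, c2, c3, c4, and_false, false_and, and_true, true_and, if_false, if_true,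
      and_self, mul_zero, zero_mul, add_zero, sub_zero, neg_zero]
  · exact absurd (by omega) c2
  · simp only [c1, c2, c3, c4, and_false, false_and, and_true, true_and, if_false, if_true,
      and_self, mul_zero, zero_mul, add_zero, sub_zero, neg_zero]
  · simp only [c1, c2, c3, c4, and_false, false_and, and_true, true_and, if_false, if_true,
      and_self, mul_zero, zero_mul, add_zero, sub_zero, neg_zero]
  · simp only [c1, c2, c3, c4, and_false, false_and, and_true, true_and, if_false, if_true,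
      and_self, mul_zero, zero_mul, add_zero, sub_zero, neg_zero]
  · exact absurd (by omega) c1
  · simp only [c1, c2, c3, c4, and_false, false_and, and_true, true_and, if_false, if_true,
      and_self, mul_zero, zero_mul, add_zero, sub_zero, neg_zero]
  · simp only [c1, c2, c3, c4, and_false, false_and, and_true, true_and, if_false, if_true,
      and_self, mul_zero, zero_mul, add_zero, sub_zero, neg_zero]
  · simp only [c1, c2, c3, c4, and_false, false_and, and_true, true_and, if_false, if_true,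
      and_self, mul_zero, zero_mul, add_zero, sub_zero, neg_zero]
  · simp only [c1, c2, c3, c4, and_false, false_and, and_true, true_and, if_false, if_true,
      and_self, mul_zero, zero_mul, add_zero, sub_zero, neg_zero]
  · simp only [c1, c2, c3, c4, and_false, false_and, and_true, true_and, if_false, if_true,
      and_self, mul_zero, zero_mul, add_zero, sub_zero, neg_zero]
  · simp only [c1, c2, c3, c4, and_false, false_and, and_true, true_and, if_false, if_true,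
      and_self, mul_zero, zero_mul, add_zero, sub_zero, neg_zero]
  · simp only [c1, c2, c3, c4, and_false, false_and, and_true, true_and, if_false, if_true,
      and_self, mul_zero, zero_mul, add_zero, sub_zero, neg_zero]

end Pool.Agent.Helper2.EC.D_N9
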